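import Mathlib
import Pool.Agent.H686R3.LatticeFO

/-!
# Sublattices of subspace lattices over division rings: not finitely axiomatizable

The lattices `L_p = Sub((ℤ/p)³) × Sub(E³)`, `E` a nonprincipal ultraproduct of the prime fields,
do not embed in the subspace lattice of any vector space over any division ring, but a
nonprincipal ultraproduct of them does.
-/

set_option autoImplicit false

namespace Pool.Agent.Results.MP_d4b74c_al.NotFinitelyAxiomatizable

universe u v

open FirstOrder Filter Pool.Agent.H686R3

/-- `L` belongs to the class `K`: there are a division ring `D` (not necessarily commutative), a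
`D`-vector space `V` (of any dimension) and an injective map from `L` to the lattice of all
`D`-subspaces of `V` which preserves binary joins and meets. -/
def InClass (L : Type) [Lattice L] : Prop :=
  ∃ (D : Type u) (_ : DivisionRing D) (V : Type v) (_ : AddCommGroup V) (_ : Module D V)
    (f : LatticeHom L (Submodule D V)), Function.Injective f

section Lift

variable {F : Type} [Field F] {V : Type} [AddCommGroup V] [Module F V]

/-- The subspace lattices do not change when the field and the space are moved to other
universes. -/
def liftIso : Submodule F V ≃o Submodule (ULift.{u} F) (ULift.{v} V) where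
  toFun S :=
    { carrier := {x | x.down ∈ S}
      add_mem' := fun {a b} ha hb => S.add_mem ha hb
      zero_mem' := S.zero_mem
      smul_mem' := fun c x hx => S.smul_mem c.down hx }
  invFun S :=
    { carrier := {x | ULift.up x ∈ S}
      add_mem' := fun {a b} ha hb => S.add_mem (x := ULift.up a) (y := ULift.up b) ha hb
      zero_mem' := S.zero_mem
      smul_mem' := fun c x hx => S.smul_mem (ULift.up c) (x := ULift.up x) hx }
  left_inv S := rfl
  right_inv S := rfl
  map_rel_iff' {S T} := ⟨fun h x hx => h (x := ULift.up x) hx, fun h x hx => h hx⟩

end Lift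

theorem inClass_of_field (M : Type) [Lattice M] (h : ∃ (F : Type) (_ : Field F) (V : Type)
    (_ : AddCommGroup V) (_ : Module F V) (f : LatticeHom M (Submodule F V)),
    Function.Injective f) : InClass.{u, v} M := by
  obtain ⟨F, _, V, _, _, f, hf⟩ := h
  refine ⟨ULift.{u} F, inferInstance, ULift.{v} V, inferInstance, inferInstance,
    ((liftIso.{u, v} (F := F) (V := V) : Submodule F V ≃o _) :
      LatticeHom (Submodule F V) (Submodule (ULift.{u} F) (ULift.{v} V))).comp f, ?_⟩
  intro a b hab
  exact hf (liftIso.injective hab)

/-- No finite set of first-order sentences in the language of lattices has as its models exactly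
the lattices that embed in the subspace lattice of a vector space over a division ring. -/
theorem result : ¬ ∃ Sg : Set latLang.Sentence, Sg.Finite ∧
    ∀ (L : Type) [Lattice L], InClass.{u, v} L ↔ ∀ φ ∈ Sg, L ⊨ φ := by
  rintro ⟨Sg, hfin, hSg⟩
  have h : ∀ φ ∈ Sg, ∀ᶠ i in (UU : Filter ℕ), LL i ⊨ φ := by
    intro φ hφ
    exact core φ fun M _ hM => (hSg M).mp (inClass_of_field M hM) φ hφ
  have h2 : ∀ᶠ i in (UU : Filter ℕ), ∀ φ ∈ Sg, LL i ⊨ φ :=
    (Filter.eventually_all_finite hfin).mpr h
  obtain ⟨i, hi⟩ := h2.exists
  obtain ⟨D, hD, V, hV1, hV2, f, hf⟩ := (hSg (LL i)).mpr hi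
  exact LL_not_embeds i f hf

end Pool.Agent.Results.MP_d4b74c_al.NotFinitelyAxiomatizable
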